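import Pool.Agent.Helper19.PM.Goals

/-!
# Packet T3-TAYNW (MP_a41896_nt): the Taylor frame for moving centres
-/

set_option autoImplicit false

open MvPolynomial

namespace Pool.Agent.Helper41.PM

open WeierstrassCurve Height
open Pool.Agent.Helper29.BL Pool.Agent.Helper92.Ru Pool.Agent.Helper42.SG
open Pool.Agent.Helper68.VN hiding xs Good nz
open Pool.Agent.Helper19.PM

theorem nps_mono {K : Type} [Field K] {v : AbsoluteValue K ℝ} {τ : Type} {r : τ → ℝ}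
    {f : MvPowerSeries τ K} {S T : ℝ} (h : NPS v r f S) (hST : S ≤ T) : NPS v r f T :=
  ⟨h.1.trans hST, fun hv α => (h.2.1 hv α).trans hST, fun hv s => (h.2.2 hv s).trans hST⟩

theorem one_le_Mv {K : Type} [Field K] (v : AbsoluteValue K ℝ) (a : K) : 1 ≤ Mv v a :=
  le_max_left _ _

theorem rhoW_pos_le {K : Type} [Field K] {σ : Type} [Fintype σ] {J : Type} [Fintype J]
    (w : J → σ → ℕ) (f : J → MvPolynomial σ K) (v : AbsoluteValue K ℝ) (x : σ → K)
    (hx : ∃ k, eval x (f k) ≠ 0) : 0 < rhoW w f v x ∧ rhoW w f v x ≤ 1 := by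
  obtain ⟨k, hk⟩ := hx
  refine ⟨?_, min_le_left _ _⟩
  unfold rhoW
  apply lt_min one_pos
  have h1 : v (eval x (f k)) / ∏ i, Mv v (x i) ^ w k i ≤ ⨆ j, v (eval x (f j)) / ∏ i, Mv v (x i) ^ w j i :=
    le_ciSup (f := fun j => v (eval x (f j)) / ∏ i, Mv v (x i) ^ w j i) (Set.finite_range _).bddAbove k
  refine lt_of_lt_of_le (div_pos (v.pos hk) ?_) h1
  exact Finset.prod_pos fun i _ => pow_pos (lt_of_lt_of_le one_pos (one_le_Mv v (x i))) _

/-- PACKET TAYNW. -/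
theorem t_TAYNW (hX : TAYX) (hF : TAYFW) : TAYNW := by
  intro K _ _ σ _ _ _ W J _ w hw
  obtain ⟨B, hB, hXB⟩ := hX K σ W
  obtain ⟨B', hB', hBB, hF'⟩ := hF K σ W J w B hB
  refine ⟨B', hB', ?_⟩
  intro n f G ξ ψ hdeg hG hco hψ hk
  obtain ⟨X, Ψ, hT, hN⟩ := hXB n ξ ψ hψ
  refine ⟨X, Ψ, hT, fun v => ?_⟩
  have hB1 : 1 ≤ B v := hB.one_le v
  have hB1' : 1 ≤ B' v := hB'.one_le v
  have hrho : ∀ j, 0 < rhoW w (f j) v (ξ j) ∧ rhoW w (f j) v (ξ j) ≤ 1 :=
    fun j => rhoW_pos_le w (f j) v (ξ j) (hk j)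
  have hMpos : ∀ a : K, 0 < Mv v a := fun a => lt_of_lt_of_le one_pos (one_le_Mv v a)
  have hrad : ∀ h, 0 < radW w f (B' v) v ξ h := by
    intro h
    unfold radW
    exact div_pos (hrho h.1).1 (mul_pos (by linarith) (pow_pos (hMpos _) 2))
  have hrad2 : ∀ h, radW w f (B' v) v ξ h ≤ 1 / (B v * Mv v (ξ h.1 h.2) ^ 2) := by
    intro h
    unfold radW
    have hM2 : 0 < Mv v (ξ h.1 h.2) ^ 2 := pow_pos (hMpos _) 2
    apply div_le_div₀ zero_le_one (hrho h.1).2 (mul_pos (by linarith) hM2)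
    exact mul_le_mul_of_nonneg_right (hBB v) hM2.le
  refine ⟨hrho, hrad, fun j i => ?_, fun j k => ?_⟩
  · obtain ⟨h1, h2⟩ := hN v _ (fun h => ⟨hrad h, hrad2 h⟩) j i
    exact ⟨nps_mono h1 (mul_le_mul_of_nonneg_right (hBB v) (hMpos _).le),
      nps_mono h2 (mul_le_mul_of_nonneg_right (hBB v) (pow_pos (hMpos _) 2).le)⟩
  · refine nps_mono (hF' n f G ξ ψ X Ψ hdeg hG hco hT (fun j i => (hψ j i).1) hk v j k) ?_
    apply mul_le_mul_of_nonneg_left _ (hrho j).1.le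
    have h1 : ∏ i, (B' v * G j v * Mv v (ξ j i)) ^ w k i =
        (B' v * G j v) ^ (∑ i, w k i) * ∏ i, Mv v (ξ j i) ^ w k i := by
      rw [← Finset.prod_pow_eq_pow_sum, ← Finset.prod_mul_distrib]
      exact Finset.prod_congr rfl fun i _ => mul_pow _ _ _
    rw [h1]
    apply mul_le_mul_of_nonneg_right _ (Finset.prod_nonneg fun i _ => pow_nonneg (hMpos _).le _)
    obtain ⟨i, hi⟩ := hw k
    have h2 : 1 ≤ ∑ i, w k i := hi.trans (Finset.single_le_sum (f := fun i => w k i)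
      (fun _ _ => Nat.zero_le _) (Finset.mem_univ i))
    exact le_self_pow₀ (one_le_mul_of_one_le_of_one_le hB1' (hG j v)) (by omega)

end Pool.Agent.Helper41.PM
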